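import Pool.Agent.V5helper27.BM.Stm

set_option autoImplicit false

open Complex Filter Topology Set Metric MeasureTheory

namespace Pool.Agent.V5helper23.BM

open Pool.Agent.V5helper27.BM hiding sq


theorem sqrt2_sq : (Real.sqrt 2 : ℂ) * (Real.sqrt 2 : ℂ) = 2 := by
  rw [← Complex.ofReal_mul, Real.mul_self_sqrt (by norm_num)]; norm_num

theorem sqrt2_ne : (Real.sqrt 2 : ℂ) ≠ 0 := by
  intro h
  have := sqrt2_sq
  rw [h] at this
  norm_num at this

theorem tau_eq : tau * (Real.sqrt 2 : ℂ) = 1 - I := by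
  have h1 : tau = (Real.sqrt 2 : ℂ) / 2 - (Real.sqrt 2 : ℂ) / 2 * I := by
    unfold tau
    have : (-(Real.pi / 4) * I : ℂ) = ((-(Real.pi / 4) : ℝ) : ℂ) * I := by push_cast; ring
    rw [this, Complex.exp_mul_I, ← Complex.ofReal_cos, ← Complex.ofReal_sin, Real.cos_neg, Real.sin_neg,
      Real.cos_pi_div_four, Real.sin_pi_div_four]
    push_cast
    ring
  rw [h1]
  linear_combination ((1 - I) / 2) * sqrt2_sq

theorem tau_norm : ‖tau‖ = 1 := by
  unfold tau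
  have : (-(Real.pi / 4) * I : ℂ) = ((-(Real.pi / 4) : ℝ) : ℂ) * I := by push_cast; ring
  rw [this, Complex.norm_exp_ofReal_mul_I]

/-- facts on `u` -/
theorem ne1 {u : ℂ} (hu : 1 < ‖u‖) : u - 1 ≠ 0 ∧ u + 1 ≠ 0 := by
  constructor
  · intro h
    have : u = 1 := by linear_combination h
    rw [this] at hu; simp at hu
  · intro h
    have : u = -1 := by linear_combination h
    rw [this] at hu; simp at hu

theorem re_r {u : ℂ} (hu : 1 < ‖u‖) : 0 < ((u + 1) / (u - 1)).re := by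
  have h1 := (ne1 hu).1
  have h2 : 0 < normSq (u - 1) := normSq_pos.mpr h1
  rw [Complex.div_re]
  rw [← add_div]
  apply div_pos _ h2
  have h3 : 1 < normSq u := by
    rw [Complex.normSq_eq_norm_sq]
    nlinarith
  rw [Complex.normSq_apply] at h3
  simp only [add_re, one_re, sub_re, add_im, one_im, sub_im]
  nlinarith

theorem r_ne {u : ℂ} (hu : 1 < ‖u‖) : (u + 1) / (u - 1) ≠ 0 := div_ne_zero (ne1 hu).2 (ne1 hu).1

theorem sq_sq {u : ℂ} (hu : 1 < ‖u‖) : V5helper27.BM.sq u * V5helper27.BM.sq u = (u + 1) / (u - 1) := by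
  unfold Pool.Agent.V5helper27.BM.sq
  rw [← Complex.exp_add, add_halves, Complex.exp_log (r_ne hu)]

theorem sq_re {u : ℂ} (hu : 1 < ‖u‖) : 0 < (V5helper27.BM.sq u).re := by
  unfold Pool.Agent.V5helper27.BM.sq
  rw [Complex.exp_re]
  apply mul_pos (Real.exp_pos _)
  apply Real.cos_pos_of_mem_Ioo
  have h : (Complex.log ((u + 1) / (u - 1)) / 2).im = Complex.arg ((u + 1) / (u - 1)) / 2 := by
    rw [show (2 : ℂ) = ((2 : ℝ) : ℂ) by norm_num, Complex.div_ofReal_im, Complex.log_im]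
  rw [h]
  have h1 := Complex.neg_pi_lt_arg ((u + 1) / (u - 1))
  have h2 := Complex.arg_le_pi ((u + 1) / (u - 1))
  have h3 : |Complex.arg ((u + 1) / (u - 1))| < Real.pi / 2 := by
    rw [Complex.abs_arg_lt_pi_div_two_iff]
    left
    exact re_r hu
  have h4 := abs_lt.mp h3
  constructor <;> linarith [h4.1, h4.2, Real.pi_pos]

theorem sq_im {u : ℂ} (hu : 1 < ‖u‖) : (V5helper27.BM.sq u).im < (V5helper27.BM.sq u).re ∧ -(V5helper27.BM.sq u).re < (V5helper27.BM.sq u).im := by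
  have h1 := sq_re hu
  have h2 := re_r hu
  rw [← sq_sq hu, Complex.mul_re] at h2
  constructor <;> nlinarith

theorem sq_rel {u : ℂ} (hu : 1 < ‖u‖) : V5helper27.BM.sq u * V5helper27.BM.sq u * (u - 1) = u + 1 := by
  rw [sq_sq hu]; field_simp [(ne1 hu).1]

theorem sq_ne {u : ℂ} (hu : 1 < ‖u‖) :
    V5helper27.BM.sq u ≠ 0 ∧ V5helper27.BM.sq u - 1 ≠ 0 ∧ V5helper27.BM.sq u + 1 ≠ 0 ∧ V5helper27.BM.sq u + I ≠ 0 ∧ V5helper27.BM.sq u * V5helper27.BM.sq u - 1 ≠ 0 := by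
  have h1 := sq_re hu
  have h5 : V5helper27.BM.sq u - 1 ≠ 0 := by
    intro h
    have h2 := sq_rel hu
    have h3 : V5helper27.BM.sq u = 1 := by linear_combination h
    rw [h3] at h2
    have : (2 : ℂ) = 0 := by linear_combination -h2
    norm_num at this
  have h6 : V5helper27.BM.sq u + 1 ≠ 0 := by
    intro h
    have := congrArg Complex.re h
    simp at this
    linarith
  refine ⟨Complex.exp_ne_zero _, h5, h6, ?_, ?_⟩
  · intro h
    have := congrArg Complex.re h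
    simp at this
    linarith
  · have : V5helper27.BM.sq u * V5helper27.BM.sq u - 1 = (V5helper27.BM.sq u - 1) * (V5helper27.BM.sq u + 1) := by ring
    rw [this]; exact mul_ne_zero h5 h6

theorem u_eq {u : ℂ} (hu : 1 < ‖u‖) : u = (V5helper27.BM.sq u + I) * (V5helper27.BM.sq u - I) / ((V5helper27.BM.sq u - 1) * (V5helper27.BM.sq u + 1)) := by
  obtain ⟨h1, h2, h3, h4, h5⟩ := sq_ne hu
  rw [eq_div_iff (mul_ne_zero h2 h3)]
  linear_combination sq_rel hu + I_sq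

theorem um1_eq {u : ℂ} (hu : 1 < ‖u‖) : u - 1 = 2 / ((V5helper27.BM.sq u - 1) * (V5helper27.BM.sq u + 1)) := by
  obtain ⟨h1, h2, h3, h4, h5⟩ := sq_ne hu
  rw [eq_div_iff (mul_ne_zero h2 h3)]
  linear_combination sq_rel hu

theorem sq_deriv {u : ℂ} (hu : 1 < ‖u‖) : HasDerivAt V5helper27.BM.sq (-1 / (V5helper27.BM.sq u * (u - 1) ^ 2)) u := by
  have h1 := (ne1 hu).1
  have h2 := (ne1 hu).2
  have hr : HasDerivAt (fun v : ℂ => (v + 1) / (v - 1)) ((1 * (u - 1) - (u + 1) * 1) / (u - 1) ^ 2) u :=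
    ((hasDerivAt_id u).add_const 1).div ((hasDerivAt_id u).sub_const 1) h1
  have hl := (hr.clog (Or.inl (re_r hu))).div_const 2
  have he := hl.cexp
  refine he.congr_deriv ?_
  have hs : cexp (Complex.log ((u + 1) / (u - 1)) / 2) = V5helper27.BM.sq u := rfl
  rw [hs]
  have h3 := sq_rel hu
  have h4 := (sq_ne hu).1
  field_simp
  linear_combination (-2 : ℂ) * h3

theorem kk_deriv {u : ℂ} (hu : 1 < ‖u‖) :
    HasDerivAt kk ((Real.sqrt 2 : ℂ) * (V5helper27.BM.sq u + 1) ^ 2 / (4 * V5helper27.BM.sq u)) u := by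
  obtain ⟨h1, h2, h3, h4, h5⟩ := sq_ne hu
  have hs := sq_deriv hu
  have hk := ((hs.add_const I).const_mul tau).div (hs.sub_const 1) h2
  refine hk.congr_deriv ?_
  rw [um1_eq hu]
  have ht := tau_eq
  have h22 := sqrt2_sq
  have h20 := sqrt2_ne
  have ht2 : tau = (1 - I) / (Real.sqrt 2 : ℂ) := by rw [eq_div_iff h20]; exact ht
  rw [ht2]
  field_simp
  ring_nf
  simp only [I_sq]
  have h23 : (Real.sqrt 2 : ℂ) ^ 2 = 2 := by rw [pow_two]; exact h22
  rw [h23]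
  ring

theorem kk_sub {u : ℂ} (hu : 1 < ‖u‖) : kk u - z0 = tau * I * (V5helper27.BM.sq u - I) / (V5helper27.BM.sq u - 1) := by
  obtain ⟨h1, h2, h3, h4, h5⟩ := sq_ne hu
  unfold kk z0
  have h20 := sqrt2_ne
  have ht2 : tau = (1 - I) / (Real.sqrt 2 : ℂ) := by rw [eq_div_iff h20]; exact tau_eq
  rw [ht2]
  field_simp
  have h23 : (Real.sqrt 2 : ℂ) ^ 2 = 2 := by rw [pow_two]; exact sqrt2_sq
  rw [h23]
  linear_combination (V5helper27.BM.sq u - I) * I_sq

theorem normSq_lt {a b : ℂ} (h : normSq a < normSq b) : ‖a‖ < ‖b‖ := by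
  rw [Complex.normSq_eq_norm_sq, Complex.normSq_eq_norm_sq] at h
  exact lt_of_pow_lt_pow_left₀ 2 (norm_nonneg _) h

theorem normSq_le {a b : ℂ} (h : normSq a ≤ normSq b) : ‖a‖ ≤ ‖b‖ := by
  rw [Complex.normSq_eq_norm_sq, Complex.normSq_eq_norm_sq] at h
  exact (sq_le_sq₀ (norm_nonneg _) (norm_nonneg _)).mp h

theorem kk_norm {u : ℂ} (hu : 1 < ‖u‖) : ‖u‖ ≤ ‖kk u‖ := by
  obtain ⟨h1, h2, h3, h4, h5⟩ := sq_ne hu
  obtain ⟨g1, g2⟩ := sq_im hu
  have e1 : u = ((V5helper27.BM.sq u + I) / (V5helper27.BM.sq u - 1)) * ((V5helper27.BM.sq u - I) / (V5helper27.BM.sq u + 1)) := by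
    rw [div_mul_div_comm]; exact u_eq hu
  have e2 : kk u = tau * ((V5helper27.BM.sq u + I) / (V5helper27.BM.sq u - 1)) := by
    unfold kk; rw [mul_div_assoc]
  have e3 : ‖u‖ = ‖(V5helper27.BM.sq u + I) / (V5helper27.BM.sq u - 1)‖ * ‖(V5helper27.BM.sq u - I) / (V5helper27.BM.sq u + 1)‖ := by
    rw [← norm_mul, ← e1]
  rw [e2, e3, norm_mul, tau_norm, one_mul]
  have h6 : ‖(V5helper27.BM.sq u - I) / (V5helper27.BM.sq u + 1)‖ ≤ 1 := by
    rw [norm_div, div_le_one (norm_pos_iff.mpr h3)]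
    apply normSq_le
    rw [Complex.normSq_apply, Complex.normSq_apply]
    simp only [sub_re, I_re, sub_im, I_im, add_re, one_re, add_im, one_im]
    nlinarith
  exact mul_le_of_le_one_right (norm_nonneg _) h6

theorem kk_out {u : ℂ} (hu : 1 < ‖u‖) : 1 < ‖kk u - z0‖ := by
  obtain ⟨h1, h2, h3, h4, h5⟩ := sq_ne hu
  obtain ⟨g1, g2⟩ := sq_im hu
  rw [kk_sub hu, norm_div, norm_mul, norm_mul, tau_norm, norm_I, one_mul, one_mul,
    one_lt_div (norm_pos_iff.mpr h2)]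
  apply normSq_lt
  rw [Complex.normSq_apply, Complex.normSq_apply]
  simp only [sub_re, I_re, sub_im, I_im, one_re, one_im]
  nlinarith

theorem kk_inj : InjOn kk Ex := by
  intro u hu v hv huv
  have hu' : 1 < ‖u‖ := hu
  have hv' : 1 < ‖v‖ := hv
  obtain ⟨h1, h2, h3, h4, h5⟩ := sq_ne hu'
  obtain ⟨k1, k2, k3, k4, k5⟩ := sq_ne hv'
  unfold kk at huv
  have ht : tau ≠ 0 := by
    intro h
    have := tau_norm
    rw [h] at this; simp at this
  rw [div_eq_div_iff h2 k2] at huv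
  have h6 : tau * ((1 + I) * (V5helper27.BM.sq v - V5helper27.BM.sq u)) = 0 := by linear_combination huv
  have h7 : (1 + I : ℂ) ≠ 0 := by
    intro h
    have := congrArg Complex.re h
    simp at this
  have h8 : V5helper27.BM.sq v - V5helper27.BM.sq u = 0 := by
    rcases mul_eq_zero.mp h6 with h | h
    · exact absurd h ht
    · rcases mul_eq_zero.mp h with h | h
      · exact absurd h h7
      · exact h
  have h9 : V5helper27.BM.sq v = V5helper27.BM.sq u := by linear_combination h8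
  have e1 := um1_eq hu'
  have e2 := um1_eq hv'
  rw [h9] at e2
  linear_combination e1 - e2

theorem sg_diff {u : ℂ} (hu : 1 < ‖u‖) : DifferentiableAt ℂ sg u := by
  have h1 := (ne1 hu).1
  have hr : DifferentiableAt ℂ (fun v : ℂ => (v + 1) / (v - 1)) u :=
    (differentiableAt_id.add_const 1).div (differentiableAt_id.sub_const 1) h1
  have hs := (sq_deriv hu).differentiableAt
  have hs1 : DifferentiableAt ℂ (fun v : ℂ => (V5helper27.BM.sq v + 1) / 2) u := (hs.add_const 1).div_const 2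
  unfold sg
  refine ((hs1.clog ?_).const_mul 2).sub ((hr.clog (Or.inl (re_r hu))).div_const 2)
  left
  have := sq_re hu
  rw [show (2 : ℂ) = ((2 : ℝ) : ℂ) by norm_num, Complex.div_ofReal_re]
  simp only [add_re, one_re]
  linarith

theorem sg_exp {u : ℂ} (hu : 1 < ‖u‖) : cexp (sg u) * (Real.sqrt 2 : ℂ) = deriv kk u := by
  obtain ⟨h1, h2, h3, h4, h5⟩ := sq_ne hu
  rw [(kk_deriv hu).deriv]
  have h6 : cexp (sg u) = ((V5helper27.BM.sq u + 1) / 2) ^ 2 / V5helper27.BM.sq u := by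
    unfold sg
    rw [Complex.exp_sub]
    congr 1
    rw [two_mul, Complex.exp_add, Complex.exp_log (div_ne_zero h3 two_ne_zero), pow_two]
  rw [h6]
  field_simp
  norm_num

/-- the argument of the logarithm in `nn` -/
theorem nn_arg {u : ℂ} (hu : 1 < ‖u‖) :
    tau * I / (Real.sqrt 2 : ℂ) * ((V5helper27.BM.sq u + 1) / (V5helper27.BM.sq u + I)) = (1 + I) * (V5helper27.BM.sq u + 1) / (2 * (V5helper27.BM.sq u + I)) := by
  obtain ⟨h1, h2, h3, h4, h5⟩ := sq_ne hu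
  have h20 := sqrt2_ne
  have ht2 : tau = (1 - I) / (Real.sqrt 2 : ℂ) := by rw [eq_div_iff h20]; exact tau_eq
  have h23 : (Real.sqrt 2 : ℂ) ^ 2 = 2 := by rw [pow_two]; exact sqrt2_sq
  rw [ht2]
  field_simp
  rw [h23]
  linear_combination (-2 : ℂ) * (I_sq)

theorem nn_re {u : ℂ} (hu : 1 < ‖u‖) :
    1 / 2 ≤ ((1 + I) * (V5helper27.BM.sq u + 1) / (2 * (V5helper27.BM.sq u + I))).re := by
  obtain ⟨h1, h2, h3, h4, h5⟩ := sq_ne hu
  obtain ⟨g1, g2⟩ := sq_im hu
  have g0 := sq_re hu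
  have h6 : 0 < normSq (2 * (V5helper27.BM.sq u + I)) := normSq_pos.mpr (mul_ne_zero two_ne_zero h4)
  rw [Complex.div_re, ← add_div, le_div_iff₀ h6, Complex.normSq_apply]
  simp only [mul_re, mul_im, add_re, add_im, one_re, one_im, I_re, I_im, Complex.re_ofNat, Complex.im_ofNat]
  nlinarith

theorem nn_slit {u : ℂ} (hu : 1 < ‖u‖) :
    tau * I / (Real.sqrt 2 : ℂ) * ((V5helper27.BM.sq u + 1) / (V5helper27.BM.sq u + I)) ∈ slitPlane := by
  left
  rw [nn_arg hu]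
  linarith [nn_re hu]

theorem nn_diff {u : ℂ} (hu : 1 < ‖u‖) : DifferentiableAt ℂ nn u := by
  obtain ⟨h1, h2, h3, h4, h5⟩ := sq_ne hu
  have hs := (sq_deriv hu).differentiableAt
  unfold nn
  exact (((hs.add_const 1).div (hs.add_const I) h4).const_mul _).clog (nn_slit hu)

theorem nn_exp {u : ℂ} (hu : 1 < ‖u‖) : cexp (nn u) * ((Real.sqrt 2 : ℂ) * u) = kk u - z0 := by
  obtain ⟨h1, h2, h3, h4, h5⟩ := sq_ne hu
  rw [kk_sub hu]
  unfold nn
  rw [Complex.exp_log (Complex.slitPlane_ne_zero (nn_slit hu))]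
  have h20 := sqrt2_ne
  rw [show (tau * I / (Real.sqrt 2 : ℂ) * ((V5helper27.BM.sq u + 1) / (V5helper27.BM.sq u + I)) * ((Real.sqrt 2 : ℂ) * u) : ℂ) =
    tau * I / (Real.sqrt 2 : ℂ) * ((V5helper27.BM.sq u + 1) / (V5helper27.BM.sq u + I)) * ((Real.sqrt 2 : ℂ) *
      ((V5helper27.BM.sq u + I) * (V5helper27.BM.sq u - I) / ((V5helper27.BM.sq u - 1) * (V5helper27.BM.sq u + 1)))) by rw [← u_eq hu]]
  field_simp

/-- `|log z| ≤ |z - 1| / c` on the half plane `Re z ≥ c` -/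
theorem log_lip {c : ℝ} (hc : 0 < c) (hc1 : c ≤ 1) {z : ℂ} (hz : c ≤ z.re) : ‖Complex.log z‖ ≤ 1 / c * ‖z - 1‖ := by
  have hconv : Convex ℝ {w : ℂ | c ≤ w.re} := convex_halfSpace_re_ge c
  have h1 : (1 : ℂ) ∈ {w : ℂ | c ≤ w.re} := by simpa using hc1
  have key := hconv.norm_image_sub_le_of_norm_hasDerivWithin_le (𝕜 := ℂ) (f := Complex.log) (f' := fun w => w⁻¹)
    (C := 1 / c) (s := {w : ℂ | c ≤ w.re}) (x := 1) (y := z) ?_ ?_ h1 hz
  · simpa using key
  · intro w hw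
    have hw' : c ≤ w.re := hw
    exact (Complex.hasDerivAt_log (Or.inl (by linarith))).hasDerivWithinAt
  · intro w hw
    have hw' : c ≤ w.re := hw
    rw [norm_inv, ← one_div]
    exact one_div_le_one_div_of_le hc (hw'.trans ((le_abs_self _).trans (Complex.abs_re_le_norm w)))

theorem re_r_ge {u : ℂ} (hu : 2 ≤ ‖u‖) : 1 / 3 ≤ ((u + 1) / (u - 1)).re := by
  have hu1 : 1 < ‖u‖ := by linarith
  have h1 := (ne1 hu1).1
  have h2 : 0 < normSq (u - 1) := normSq_pos.mpr h1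
  have h3 : (u.re * u.re + u.im * u.im) = ‖u‖ ^ 2 := by
    rw [← Complex.normSq_apply, Complex.normSq_eq_norm_sq]
  have h4 : -‖u‖ ≤ u.re := (abs_le.mp (Complex.abs_re_le_norm u)).1
  rw [Complex.div_re, ← add_div, le_div_iff₀ h2, Complex.normSq_apply]
  simp only [add_re, one_re, sub_re, add_im, one_im, sub_im]
  nlinarith

theorem w_bound {u : ℂ} (hu : 2 ≤ ‖u‖) : ‖(u + 1) / (u - 1) - 1‖ ≤ 4 / ‖u‖ := by
  have hu1 : 1 < ‖u‖ := by linarith
  have h1 := (ne1 hu1).1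
  have e : (u + 1) / (u - 1) - 1 = 2 / (u - 1) := by field_simp; ring
  rw [e, norm_div]
  have h2 : ‖u‖ / 2 ≤ ‖u - 1‖ := by
    have := norm_sub_norm_le u 1
    rw [norm_one] at this
    linarith
  have h3 : (0 : ℝ) < ‖u‖ := by linarith
  rw [show ‖(2 : ℂ)‖ = 2 by norm_num, div_le_div_iff₀ (norm_pos_iff.mpr h1) h3]
  linarith

theorem s_bound {u : ℂ} (hu : 1 < ‖u‖) : ‖V5helper27.BM.sq u - 1‖ ≤ ‖(u + 1) / (u - 1) - 1‖ := by
  obtain ⟨h1, h2, h3, h4, h5⟩ := sq_ne hu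
  have e : (u + 1) / (u - 1) - 1 = (V5helper27.BM.sq u - 1) * (V5helper27.BM.sq u + 1) := by
    rw [← sq_sq hu]; ring
  rw [e, norm_mul]
  have h6 : 1 ≤ ‖V5helper27.BM.sq u + 1‖ := by
    have := (le_abs_self _).trans (Complex.abs_re_le_norm (V5helper27.BM.sq u + 1))
    have h7 := sq_re hu
    simp only [add_re, one_re] at this
    linarith
  exact le_mul_of_one_le_right (norm_nonneg _) h6

theorem sg_bound {u : ℂ} (hu : 2 ≤ ‖u‖) : ‖sg u‖ ≤ 14 / ‖u‖ := by
  have hu1 : 1 < ‖u‖ := by linarith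
  have hu0 : 0 < ‖u‖ := by linarith
  have hw := w_bound hu
  have hs := s_bound hu1
  have g0 := sq_re hu1
  have h1 := log_lip (c := 1 / 3) (by norm_num) (by norm_num) (re_r_ge hu)
  have h2 := log_lip (c := 1 / 2) (z := (V5helper27.BM.sq u + 1) / 2) (by norm_num) (by norm_num) (by
    rw [show (2 : ℂ) = ((2 : ℝ) : ℂ) by norm_num, Complex.div_ofReal_re]
    simp only [add_re, one_re]
    linarith)
  have e : (V5helper27.BM.sq u + 1) / 2 - 1 = (V5helper27.BM.sq u - 1) / 2 := by ring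
  rw [e, norm_div, show ‖(2 : ℂ)‖ = 2 by norm_num] at h2
  unfold sg
  have h3 := norm_sub_le (2 * Complex.log ((V5helper27.BM.sq u + 1) / 2)) (Complex.log ((u + 1) / (u - 1)) / 2)
  rw [norm_mul, norm_div, show ‖(2 : ℂ)‖ = 2 by norm_num] at h3
  refine h3.trans ?_
  have h4 : 14 / ‖u‖ = 7 / 2 * (4 / ‖u‖) := by ring
  rw [h4]
  linarith

theorem nn_bound {u : ℂ} (hu : 2 ≤ ‖u‖) : ‖nn u‖ ≤ 14 / ‖u‖ := by
  have hu1 : 1 < ‖u‖ := by linarith
  have hu0 : 0 < ‖u‖ := by linarith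
  obtain ⟨h1, h2, h3, h4, h5⟩ := sq_ne hu1
  obtain ⟨g1, g2⟩ := sq_im hu1
  have g0 := sq_re hu1
  have hw := w_bound hu
  have hs := s_bound hu1
  unfold nn
  rw [nn_arg hu1]
  have h6 := log_lip (c := 1 / 2) (by norm_num) (by norm_num) (nn_re hu1)
  have e : (1 + I) * (V5helper27.BM.sq u + 1) / (2 * (V5helper27.BM.sq u + I)) - 1 = (I - 1) * (V5helper27.BM.sq u - 1) / (2 * (V5helper27.BM.sq u + I)) := by
    field_simp
    ring
  have h7 : ‖(I - 1) / (2 * (V5helper27.BM.sq u + I))‖ ≤ 1 := by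
    rw [norm_div, div_le_one (norm_pos_iff.mpr (mul_ne_zero two_ne_zero h4))]
    apply normSq_le
    rw [Complex.normSq_apply, Complex.normSq_apply]
    simp only [mul_re, mul_im, sub_re, sub_im, add_re, add_im, one_re, one_im, I_re, I_im, Complex.re_ofNat,
      Complex.im_ofNat]
    have h71 : 1 ≤ ((V5helper27.BM.sq u).re + (V5helper27.BM.sq u).im + 1) * ((V5helper27.BM.sq u).re + (V5helper27.BM.sq u).im + 1) := by nlinarith
    nlinarith [mul_self_nonneg ((V5helper27.BM.sq u).re - (V5helper27.BM.sq u).im - 1)]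
  have h8 : ‖(1 + I) * (V5helper27.BM.sq u + 1) / (2 * (V5helper27.BM.sq u + I)) - 1‖ ≤ ‖V5helper27.BM.sq u - 1‖ := by
    rw [e, mul_comm (I - 1), mul_div_assoc, norm_mul]
    exact mul_le_of_le_one_right (norm_nonneg _) h7
  have h9 : 14 / ‖u‖ = 7 / 2 * (4 / ‖u‖) := by ring
  have h10 : 0 ≤ 4 / ‖u‖ := by positivity
  rw [h9]
  norm_num at h6
  linarith

theorem z0_norm : ‖z0‖ = Real.sqrt 2 := by
  unfold z0
  rw [norm_mul, norm_neg, norm_I, mul_one, Complex.norm_real, Real.norm_eq_abs, abs_of_nonneg (Real.sqrt_nonneg _)]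

theorem km1 : S_km1 := by
  refine ⟨z0_norm, fun u hu => (kk_deriv hu).differentiableAt.differentiableWithinAt, kk_inj,
    fun u hu => ⟨kk_norm hu, kk_out hu⟩, fun u hu => (sg_diff hu).differentiableWithinAt,
    fun u hu => sg_exp hu, fun u hu => (nn_diff hu).differentiableWithinAt, fun u hu => nn_exp hu, 14,
    fun u hu => ⟨sg_bound hu, nn_bound hu⟩⟩

end Pool.Agent.V5helper23.BM
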